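import Mathlib
import Pool.Agent.W672.FK.Lowf
import Pool.Agent.W307.RT.Tors
import Pool.Agent.Y679.Cr.Conv
import Pool.Agent.N684.MC.Top

/-!
# Ranks over all multiquadratic fields, for all curves with full 2-torsion ordered by the conductor

All elliptic curves `E` over `ℚ` with full rational 2-torsion are ordered by the conductor, without
any bound on the height or on the discriminant. Let `F = ℚ(√d_1, …, √d_s)`. The average over the
curves of conductor at most `Z` of `(rank E(F) + corank Ш(E/F)[2 ^ ∞]) / 2 ^ s` is at most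
`C + 14 ω(d_1 ⋯ d_s)`, with one constant `C` for all the multiquadratic fields with
`|d_1 ⋯ d_s| ≤ Z ^ A`. One set of curves of density zero does for all the fields `F` at once: off
this set all the moments of `2 ^ rank E(F)` are bounded, and for every `F` the upper density of the
curves with `rank E(F) + corank Ш(E/F)[2 ^ ∞] ≥ r` is `o (A ^ (-r))` for every `A`.
-/

namespace Pool.Agent.Results.MP_157626_nt.MultiquadraticByConductor

open Finset Filter Topology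

/-- the curve `y² = x³ + A x + B` over `ℚ` -/
def E (c : ℤ × ℤ) : WeierstrassCurve ℚ := ⟨0, 0, 0, (c.1 : ℚ), (c.2 : ℚ)⟩

/-- the prime-to-6 part of the conductor of `y² = x³ + A x + B` (there is no prime `p` with `p⁴ ∣ A`
and `p⁶ ∣ B`): the product over the primes `p ≥ 5` dividing `4 A³ + 27 B²` of `p` (multiplicative
reduction: `p ∤ A`) or `p²` (additive reduction: `p ∣ A`) -/
def Cond6 (c : ℤ × ℤ) : ℕ :=
  ∏ p ∈ (Int.natAbs (4 * c.1 ^ 3 + 27 * c.2 ^ 2)).primeFactors.filter (fun p => 5 ≤ p),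
    if (p : ℤ) ∣ c.1 then p ^ 2 else p

/-- the admissible factors: functions with values between `1` and `2 ^ 8 * 3 ^ 5`, for instance the
part of the conductor composed of the primes 2 and 3, or `f = 1` -/
def Factor (f : ℤ × ℤ → ℕ) : Prop := ∀ c, 1 ≤ f c ∧ f c ≤ 2 ^ 8 * 3 ^ 5

/-- The pairs `(A, B)` of integers such that `4 A³ + 27 B² ≠ 0`, there is no prime `p` with
`p⁴ ∣ A` and `p⁶ ∣ B`, `Z/2 x Z/2` embeds in the group of the rational points of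
`y² = x³ + A x + B`, and `f * Cond6 ≤ Z` (for a suitable factor `f`: the conductor is at most `Z`).
Every elliptic curve over `ℚ` with full rational 2-torsion is isomorphic to `E` of exactly one pair
with the first three properties. -/
def Fam (f : ℤ × ℤ → ℕ) (Z : ℕ) : Set (ℤ × ℤ) :=
  {c : ℤ × ℤ | 4 * c.1 ^ 3 + 27 * c.2 ^ 2 ≠ 0 ∧
    (∀ p : ℕ, p.Prime → ¬ ((p : ℤ) ^ 4 ∣ c.1 ∧ (p : ℤ) ^ 6 ∣ c.2)) ∧
    (∃ g : ZMod 2 × ZMod 2 →+ (E c).toAffine.Point, Function.Injective g) ∧ f c * Cond6 c ≤ Z}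

/-- the proportion of the curves of `S` in the family -/
noncomputable def proportion (f : ℤ × ℤ → ℕ) (S : Set (ℤ × ℤ)) (Z : ℕ) : ℝ :=
  ((Fam f Z ∩ S).ncard : ℝ) / (Fam f Z).ncard

/-- `F` is the multiquadratic field `ℚ(√d_1, …, √d_s)`, with nonzero integers `d_i` -/
def IsMultiquadratic (F : Type) [Field F] [NumberField F] {s : ℕ} (d : Fin s → ℤ) : Prop :=
  (∀ i, d i ≠ 0) ∧ ∃ x : Fin s → F, (∀ i, x i ^ 2 = (d i : F)) ∧
    IntermediateField.adjoin ℚ (Set.range x) = ⊤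

/-- the number of the prime divisors of `d_1 ⋯ d_s` -/
def omega {s : ℕ} (d : Fin s → ℤ) : ℕ := (∏ i, d i).natAbs.primeFactors.card

/-- the curve `y² = x³ + A x + B` over the number field `F` -/
def EF (c : ℤ × ℤ) (F : Type) [Field F] : WeierstrassCurve F := ⟨0, 0, 0, (c.1 : F), (c.2 : F)⟩

/-- `rank E(F) + corank Ш(E/F)[2 ^ ∞]`; the rank of the group of the points over `F`, and the
largest `q` such that the Tate-Shafarevich group over `F` has a subgroup isomorphic to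
`(ℚ₂ / ℤ₂) ^ q` (the set of these `q` is bounded, see the theorem) -/
noncomputable def rc (F : Type) [Field F] [NumberField F] (c : ℤ × ℤ) : ℕ :=
  Pool.Agent.TH841.NF.D.rk (EF c F) + Pool.Agent.TH841.NF.D.crk (EF c F)

/-- the property without the size -/
def Pr (c : ℤ × ℤ) : Prop := 4 * c.1 ^ 3 + 27 * c.2 ^ 2 ≠ 0 ∧
    (∀ p : ℕ, p.Prime → ¬ ((p : ℤ) ^ 4 ∣ c.1 ∧ (p : ℤ) ^ 6 ∣ c.2)) ∧
    (∃ g : ZMod 2 × ZMod 2 →+ (E c).toAffine.Point, Function.Injective g)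

lemma good : Pool.Agent.Y679.Cr.Good Pr := by
  classical
  refine ⟨fun c hc => ⟨?_, ?_⟩, fun H c hc => ?_, Pool.Agent.W672.FK.lowf⟩
  · exact Pool.Agent.Y679.Cr.isMin_of hc.1 hc.2.1
  · exact Pool.Agent.Y679.Cr.full_of (Pool.Agent.W307.RT.tors_iff.2 hc.2.2)
  · unfold Pool.Agent.W307.RT.Cv at hc
    obtain ⟨-, h1, -, -, h2, h3⟩ := mem_filter.1 hc
    exact ⟨h1, h2, Pool.Agent.W307.RT.tors_iff.1 h3⟩

lemma cond_eq (c : ℤ × ℤ) : Pool.Agent.Y679.Cr.cs c = Cond6 c := by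
  unfold Pool.Agent.Y679.Cr.cs Pool.Agent.H925R.Szpiro.condS Cond6
  rw [Pool.Agent.Y679.Cr.D_neg, Int.natAbs_neg]
  refine prod_congr rfl fun p _ => ?_
  by_cases h : (p : ℤ) ∣ c.1
  · rw [if_pos h, if_pos (Int.dvd_neg.2 h)]
  · rw [if_neg h, if_neg fun h' => h (Int.dvd_neg.1 h')]

lemma bdd {f : ℤ × ℤ → ℕ} (hf : Factor f) : Pool.Agent.Y679.Cr.Bdd f :=
  fun c => ⟨(hf c).1, (hf c).2.trans (by norm_num)⟩

lemma Fam_eq (f : ℤ × ℤ → ℕ) (Z : ℕ) : Fam f Z = Pool.Agent.Y679.Cr.Gm Pr f Z := by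
  ext c
  unfold Fam Pool.Agent.Y679.Cr.Gm
  rw [Set.mem_ofPred_eq, Set.mem_ofPred_eq, cond_eq]
  exact ⟨fun h => ⟨⟨h.1, h.2.1, h.2.2.1⟩, h.2.2.2⟩, fun h => ⟨h.1.1, h.1.2.1, h.1.2.2, h.2⟩⟩

/-- **Theorem.** Order the elliptic curves over `ℚ` with full rational 2-torsion by the conductor
(times an arbitrary factor as in `Factor`), with no bound on the height or on the discriminant.
(0) For every multiquadratic field `F` and every curve the corank of `Ш(E/F)[2 ^ ∞]` is finite.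
(1) For `0 < θ < 2 / 3` and `A ≥ 0` there is `C` such that for all `Z ≥ 1` and all multiquadratic
fields `F = ℚ(√d_1, …, √d_s)` with `|d_1 ⋯ d_s| ≤ Z ^ A` (with any `s`): the average of
`(2 ^ rc) ^ (θ / 2 ^ s)` over the curves of size at most `Z` is at most `C 128 ^ ω(d_1 ⋯ d_s)`.
(2) For `A ≥ 0` there is `C` such that for all `Z` and `F` as in (1) the average of `rc / 2 ^ s` is
at most `C + 14 ω(d_1 ⋯ d_s)`.
(3) For every multiquadratic field `F` the average of `rc` is bounded, for all `Z`.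
(4) There is a set `X` of curves, of density zero, such that for all `s`, `θ > 0` and `A ≥ 0` there
are `C` and `V` such that for all large `Z` and all `F` as in (1) the sum of `(2 ^ rc) ^ θ` over the
curves of size at most `Z` outside `X` is at most `C V ^ ω(d_1 ⋯ d_s)` times the number of all the
curves of size at most `Z`.
(5) For every multiquadratic field `F` and every real `A` the upper density of the curves with
`rc ≥ r`, times `A ^ r`, tends to `0` as `r → ∞`. -/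
theorem result :
    (∀ (F : Type) [Field F] [NumberField F] (s : ℕ) (d : Fin s → ℤ), IsMultiquadratic F d →
      ∀ f : ℤ × ℤ → ℕ, Factor f → ∀ Z : ℕ, ∀ c ∈ Fam f Z,
        BddAbove {q | Pool.Agent.TH841.NF.D.HasDiv (EF c F) q}) ∧
    (∀ θ A : ℝ, 0 < θ → θ < 2 / 3 → 0 ≤ A → ∃ C : ℝ, ∀ f : ℤ × ℤ → ℕ, Factor f →
      ∀ Z : ℕ, 1 ≤ Z → ∀ (F : Type) [Field F] [NumberField F] (s : ℕ) (d : Fin s → ℤ),
      IsMultiquadratic F d → ((∏ i, d i).natAbs : ℝ) ≤ (Z : ℝ) ^ A →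
      ∀ S : Finset (ℤ × ℤ), (S : Set (ℤ × ℤ)) = Fam f Z →
        ∑ c ∈ S, ((2 : ℝ) ^ rc F c) ^ (θ / 2 ^ s) ≤ C * 128 ^ omega d * S.card) ∧
    (∀ A : ℝ, 0 ≤ A → ∃ C : ℝ, ∀ f : ℤ × ℤ → ℕ, Factor f →
      ∀ Z : ℕ, 1 ≤ Z → ∀ (F : Type) [Field F] [NumberField F] (s : ℕ) (d : Fin s → ℤ),
      IsMultiquadratic F d → ((∏ i, d i).natAbs : ℝ) ≤ (Z : ℝ) ^ A →
      ∀ S : Finset (ℤ × ℤ), (S : Set (ℤ × ℤ)) = Fam f Z →
        ∑ c ∈ S, (rc F c : ℝ) / 2 ^ s ≤ (C + 14 * omega d) * S.card) ∧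
    (∀ (F : Type) [Field F] [NumberField F] (s : ℕ) (d : Fin s → ℤ), IsMultiquadratic F d →
      ∃ C : ℝ, ∀ f : ℤ × ℤ → ℕ, Factor f → ∀ (Z : ℕ) (S : Finset (ℤ × ℤ)),
        (S : Set (ℤ × ℤ)) = Fam f Z → ∑ c ∈ S, (rc F c : ℝ) ≤ C * S.card) ∧
    (∃ X : Set (ℤ × ℤ), (∀ f : ℤ × ℤ → ℕ, Factor f → Tendsto (proportion f X) atTop (𝓝 0)) ∧
      ∀ (s : ℕ) (θ A : ℝ), 0 < θ → 0 ≤ A → ∃ C V : ℝ, ∀ f : ℤ × ℤ → ℕ, Factor f →
        ∀ Z : ℕ, 4 * 10 ^ 7 ≤ Z → ∀ (F : Type) [Field F] [NumberField F] (d : Fin s → ℤ),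
        IsMultiquadratic F d → ((∏ i, d i).natAbs : ℝ) ≤ (Z : ℝ) ^ A →
        ∀ S : Finset (ℤ × ℤ), (S : Set (ℤ × ℤ)) = Fam f Z \ X →
          ∑ c ∈ S, ((2 : ℝ) ^ rc F c) ^ θ ≤ C * V ^ omega d * ((Fam f Z).ncard : ℝ)) ∧
    (∀ (F : Type) [Field F] [NumberField F] (s : ℕ) (d : Fin s → ℤ), IsMultiquadratic F d →
      ∀ f : ℤ × ℤ → ℕ, Factor f → ∀ A : ℝ, Tendsto (fun r : ℕ =>
        A ^ r * limsup (proportion f {c | r ≤ rc F c}) atTop) atTop (𝓝 0)) := by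
  obtain ⟨X, hX, h4⟩ := Pool.Agent.N684.MC.t45 good
  refine ⟨fun F _ _ s d hF f hf Z c hc => ?_, fun θ A hθ0 hθ hA => ?_, fun A hA => ?_,
    fun F _ _ s d hF => ?_, ⟨X, fun f hf => ?_, fun s θ A hθ hA => ?_⟩,
    fun F _ _ s d hF f hf A => ?_⟩
  · rw [Fam_eq] at hc
    exact Pool.Agent.N684.MC.t0 good hF.2 hF.1 hc.1
  · obtain ⟨C, -, h⟩ := Pool.Agent.N684.MC.t1 good hθ0 hθ hA
    refine ⟨C, fun f hf Z hZ F _ _ s d hF hd S hS => ?_⟩
    rw [Fam_eq] at hS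
    have h1 := h f (bdd hf) Z hZ F s d hF.2 hF.1 hd S hS.subset
    rwa [← hS, Set.ncard_coe_finset] at h1
  · obtain ⟨C, h⟩ := Pool.Agent.N684.MC.t2 good hA
    refine ⟨C, fun f hf Z hZ F _ _ s d hF hd S hS => ?_⟩
    rw [Fam_eq] at hS
    exact h f (bdd hf) Z hZ F s d hF.2 hF.1 hd S hS
  · obtain ⟨C, h⟩ := Pool.Agent.N684.MC.t3 good hF.2 hF.1
    refine ⟨C, fun f hf Z S hS => ?_⟩
    rw [Fam_eq] at hS
    exact h f (bdd hf) Z S hS
  · have e : proportion f X = fun Z : ℕ =>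
        ((Pool.Agent.Y679.Cr.Gm Pr f Z ∩ X).ncard : ℝ) / (Pool.Agent.Y679.Cr.Gm Pr f Z).ncard := by
      funext Z
      unfold proportion
      rw [Fam_eq]
    rw [e]
    exact hX f (bdd hf)
  · obtain ⟨C, V, -, -, h⟩ := h4 s θ A hθ hA
    refine ⟨C, V, fun f hf Z hZ F _ _ d hF hd S hS => ?_⟩
    rw [Fam_eq] at hS ⊢
    exact (h f (bdd hf) Z hZ F d hF.2 hF.1 hd S hS.subset).1
  · have e : ∀ r : ℕ, proportion f {c | r ≤ rc F c} = fun Z : ℕ =>
        ((Pool.Agent.Y679.Cr.Gm Pr f Z ∩ {c | r ≤ Pool.Agent.N684.MC.rcF F c}).ncard : ℝ) /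
          (Pool.Agent.Y679.Cr.Gm Pr f Z).ncard := by
      intro r
      funext Z
      unfold proportion
      rw [Fam_eq]
      rfl
    simp only [e]
    exact Pool.Agent.N684.MC.t5 good hF.2 hF.1 (bdd hf) A

end Pool.Agent.Results.MP_157626_nt.MultiquadraticByConductor
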